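import Pool.Agent.Lib.MP_69c751_al.SE.Large

set_option autoImplicit false

namespace Pool.Agent.Results.MP_69c751_al.FewSmallPrimes

open Pool.Agent.Lib.MP_69c751_al.SE

universe u

/-- Let `G` be a group with an abelian normal subgroup `A` such that `G/A` is abelian, and let
`g₀ x ^ c₁ g₁ x ^ c₂ g₂ ⋯ x ^ cₖ gₖ = 1`, `cᵢ = ± 1`, be an equation over `G` in one unknown `x`
(given by `g₀` and the list of the pairs `(cᵢ, gᵢ)`). Let `q`, `r` be primes such that `r` does not
divide the exponent sum `c₁ + ⋯ + cₖ` and such that every prime `p ≤ k` which is the order of an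
element of `G/A` is `q` or `r`. Then the equation has a solution in an overgroup of `G` which is
solvable of derived length at most `3`. -/
theorem result (G : Type u) [Group G] (A : Subgroup G) [A.Normal]
    (hA : ∀ a ∈ A, ∀ b ∈ A, a * b = b * a) (hT : ∀ a b : G, a * b * a⁻¹ * b⁻¹ ∈ A)
    (g₀ : G) (l : List (ℤ × G)) (hl : ∀ p ∈ l, p.1 = 1 ∨ p.1 = -1)
    (q r : ℕ) (hq : q.Prime) (hr : r.Prime) (he : ¬ (r : ℤ) ∣ (l.map Prod.fst).sum)
    (hp : ∀ p : ℕ, p.Prime → p ≤ l.length → (∃ g : G, g ∉ A ∧ g ^ p ∈ A) → p = q ∨ p = r) :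
    ∃ (H : Type u) (_ : Group H) (f : G →* H), Function.Injective f ∧ derivedSeries H 3 = ⊥ ∧
      ∃ x : H, f g₀ * (l.map fun p => x ^ p.1 * f p.2).prod = 1 := by
  apply exists_solution_of_sol
  refine sol_single A hA hT q hq g₀ l hl (good_large A q r hr _ ?_ he ?_)
  · intro x hx
    rw [List.mem_map] at hx
    obtain ⟨p, hp, rfl⟩ := hx
    exact hl p hp
  · rwa [List.length_map]

end Pool.Agent.Results.MP_69c751_al.FewSmallPrimes
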