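import Pool.Agent.Lib.MP_69c751_al.SE.Main
import Pool.Agent.Lib.MP_69c751_al.SE.Odd

set_option autoImplicit false

namespace Pool.Agent.Results.MP_69c751_al.ShortEquations

open Pool.Agent.Lib.MP_69c751_al.SE
open scoped commutatorElement

universe u

theorem good_short {G : Type u} [Group G] (A : Subgroup G) (c : List ℤ)
    (hc : ∀ x ∈ c, x = 1 ∨ x = -1) (hk : c.length ≤ 5)
    (he : c.sum = 1 ∨ c.sum = -1 ∨ c.sum = 2 ∨ c.sum = -2 ∨ c.sum = 4 ∨ c.sum = -4) :
    Good A 2 c := by
  intro N hN0 h2N _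
  have hodd : Odd N := by
    rw [← Nat.not_even_iff_odd, even_iff_two_dvd]
    exact h2N
  refine ⟨?_, ?_⟩
  · have h2 : IsCoprime (2 : ℤ) (N : ℤ) := by
      rw [Int.isCoprime_iff_gcd_eq_one]
      show Nat.Coprime 2 (N : ℤ).natAbs
      rw [Int.natAbs_natCast]
      exact (Nat.Prime.coprime_iff_not_dvd Nat.prime_two).2 h2N
    have h1 : IsCoprime (1 : ℤ) (N : ℤ) := isCoprime_one_left
    have h4 : IsCoprime (4 : ℤ) (N : ℤ) := by
      have := h2.mul_left h2
      norm_num at this
      exact this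
    rcases he with h | h | h | h | h | h <;> rw [h]
    · exact h1
    · exact h1.neg_left
    · exact h2
    · exact h2.neg_left
    · exact h4
    · exact h4.neg_left
  · intro L hL1 hL2
    refine sum_ne_zero_odd N hodd L ?_ ?_ ?_
    · intro p hp
      refine ⟨hc p.1 ?_, hL2 p hp⟩
      rw [← hL1]
      exact List.mem_map_of_mem hp
    · rw [← hL1, List.length_map] at hk
      exact hk
    · rw [hL1]
      exact he

/-- Let `G` be a metabelian group and let `g₀ x ^ c₁ g₁ x ^ c₂ g₂ ⋯ x ^ cₖ gₖ = 1` be an equation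
over `G` in one unknown `x`, where `k ≤ 5`, `cᵢ = ± 1`, and the exponent sum
`c₁ + ⋯ + cₖ` is `± 1`, `± 2` or `± 4` (the equation is given by `g₀` and the list of the pairs
`(cᵢ, gᵢ)`). Then the equation has a solution in an overgroup of `G` which is solvable of derived
length at most `3`. -/
theorem result (G : Type u) [Group G] (hG : derivedSeries G 2 = ⊥) (g₀ : G) (l : List (ℤ × G))
    (hl : ∀ p ∈ l, p.1 = 1 ∨ p.1 = -1) (hk : l.length ≤ 5)
    (he : (l.map Prod.fst).sum = 1 ∨ (l.map Prod.fst).sum = -1 ∨ (l.map Prod.fst).sum = 2 ∨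
      (l.map Prod.fst).sum = -2 ∨ (l.map Prod.fst).sum = 4 ∨ (l.map Prod.fst).sum = -4) :
    ∃ (H : Type u) (_ : Group H) (f : G →* H), Function.Injective f ∧ derivedSeries H 3 = ⊥ ∧
      ∃ x : H, f g₀ * (l.map fun p => x ^ p.1 * f p.2).prod = 1 := by
  apply exists_solution_of_sol
  refine sol_single (derivedSeries G 1) ?_ ?_ 2 Nat.prime_two g₀ l hl ?_
  · intro a ha b hb
    have h1 : ⁅a, b⁆ ∈ derivedSeries G 2 := by
      rw [derivedSeries_succ]
      exact Subgroup.commutator_mem_commutator ha hb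
    rw [hG, Subgroup.mem_bot, commutatorElement_eq_one_iff_mul_comm] at h1
    exact h1
  · intro a b
    have h1 : ⁅a, b⁆ ∈ derivedSeries G 1 := by
      rw [derivedSeries_succ, derivedSeries_zero]
      exact Subgroup.commutator_mem_commutator (Subgroup.mem_top a) (Subgroup.mem_top b)
    exact h1
  · refine good_short _ _ ?_ (by rwa [List.length_map]) he
    intro x hx
    rw [List.mem_map] at hx
    obtain ⟨p, hp, rfl⟩ := hx
    exact hl p hp

end Pool.Agent.Results.MP_69c751_al.ShortEquations
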