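import Pool.Agent.Lib.MP_69c751_al.TM.Cor2

set_option autoImplicit false

namespace Pool.Agent.Results.MP_69c751_al.TorsionPrimes

open Monoid Pool.Agent.Lib.MP_69c751_al.TM

universe u

/-- A criterion for the solvability of a system of equations `w i = 1` (`i < m`) in unknowns `x j`
(`j < n`) over a group `G` in a solvable overgroup of `G`. Here `expMat w` is the integer matrix
of the exponent sums of the unknowns, and `Sol d w` says that the system has a solution in an
overgroup of `G` which is solvable of derived length at most `d`.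

Let `s` be a natural number such that for every finitely generated subgroup `H` of `G` and every
`g ≠ 1` in `H` there are primes `q`, `r` and normal subgroups `C ≤ B ≤ D` of `H` with: the exponent
matrix has rank `m` modulo `r`; `g ∉ C`; `B/C` and `D/B` are abelian; the torsion elements of
`D/B` have `q`-power order; the index of `D` in `H` is a power of `r`; the `s`-th derived subgroup
of `H` lies in `D`. Then the system has a solution in an overgroup of `G` which is solvable of
derived length at most `s + 2`. The group `G` itself need not be metabelian. -/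
theorem result (G : Type u) [Group G] (m n : ℕ) (w : Fin m → Coprod G (FreeGroup (Fin n))) (s : ℕ)
    (h : ∀ H : Subgroup G, H.FG → ∀ g : H, g ≠ 1 →
      ∃ q r : ℕ, q.Prime ∧ r.Prime ∧ ((expMat w).map (Int.cast : ℤ → ZMod r)).rank = m ∧
      ∃ C B D : Subgroup H, C.Normal ∧ B.Normal ∧ D.Normal ∧ C ≤ B ∧ B ≤ D ∧ g ∉ C ∧
        (∀ a ∈ B, ∀ b ∈ B, a * b * a⁻¹ * b⁻¹ ∈ C) ∧
        (∀ a ∈ D, ∀ b ∈ D, a * b * a⁻¹ * b⁻¹ ∈ B) ∧
        (∀ y ∈ D, ∀ k : ℕ, 0 < k → y ^ k ∈ B → ∃ j : ℕ, y ^ q ^ j ∈ B) ∧
        (∃ a : ℕ, D.index = r ^ a) ∧ derivedSeries H s ≤ D) :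
    Sol (s + 2) w :=
  general w s h

/-- First special case (not a separate hand-in): if `A` is an abelian normal subgroup of `G` such
that `G/A` is abelian and its torsion elements have `q`-power order, then every independent system
(rank `m` over `ℚ`) has a solution in a metabelian overgroup of `G`. -/
theorem one_prime (G : Type u) [Group G] (m n : ℕ) (w : Fin m → Coprod G (FreeGroup (Fin n)))
    (A : Subgroup G) [A.Normal] (q : ℕ) (hq : q.Prime)
    (hA : ∀ a ∈ A, ∀ b ∈ A, a * b = b * a) (hT : ∀ a b : G, a * b * a⁻¹ * b⁻¹ ∈ A)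
    (htor : ∀ g : G, ∀ k : ℕ, 0 < k → g ^ k ∈ A → ∃ j : ℕ, g ^ q ^ j ∈ A)
    (hrank : ((expMat w).map (Int.cast : ℤ → ℚ)).rank = m) : Sol 2 w :=
  cor_one w hrank A hA hT q hq htor

/-- Second special case (not a separate hand-in): if `A` is an abelian normal subgroup of `G`,
`G/A` is abelian and the order of each of its torsion elements divides a power of `q * r`, then
every system whose exponent matrix has rank `m` modulo `r` has a solution in an overgroup of `G`
which is solvable of derived length at most `3`. -/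
theorem two_primes (G : Type u) [Group G] (m n : ℕ) (w : Fin m → Coprod G (FreeGroup (Fin n)))
    (A : Subgroup G) [A.Normal] (q r : ℕ) (hq : q.Prime) (hr : r.Prime)
    (hA : ∀ a ∈ A, ∀ b ∈ A, a * b = b * a) (hT : ∀ a b : G, a * b * a⁻¹ * b⁻¹ ∈ A)
    (htor : ∀ g : G, ∀ k : ℕ, 0 < k → g ^ k ∈ A → ∃ j : ℕ, g ^ (q * r) ^ j ∈ A)
    (hrank : ((expMat w).map (Int.cast : ℤ → ZMod r)).rank = m) : Sol 3 w :=
  cor_two w q r hq hr hrank A hA hT htor

end Pool.Agent.Results.MP_69c751_al.TorsionPrimes
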