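import Pool.Agent.Lib.MP_69c751_al.Group

set_option autoImplicit false

namespace Pool.Agent.Results.MP_69c751_al.UnboundedLength

open Pool.Agent.Lib.MP_69c751_al

universe u

/-- For every `d` there are a finite metabelian group `G`, an element `c ≠ 1` of `G` and an
equation `w = 1` over `G` in one unknown, with exponent sum `1` in the unknown, such that `c` lies
in the `d`-th derived subgroup of every overgroup of `G` (of every group receiving a homomorphism
from `G`, even) which contains a solution. In particular no overgroup of `G` that is solvable of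
derived length at most `d` contains a solution. -/
theorem result (d : ℕ) :
    ∃ (G : Type) (_ : Group G), Finite G ∧ derivedSeries G 2 = ⊥ ∧
      ∃ c : G, c ≠ 1 ∧ ∃ w : Monoid.Coprod G (Multiplicative ℤ),
        Monoid.Coprod.snd w = Multiplicative.ofAdd 1 ∧
        ∀ (H : Type u) [Group H] (ι : G →* H) (h : H),
          Monoid.Coprod.lift ι (zpowersHom H h) w = 1 → ι c ∈ derivedSeries H d := by
  have hinj : Function.Injective (fun i : Fin (d + 2) => Nat.nth Nat.Prime i) := by
    intro i j hij
    exact Fin.ext (Nat.nth_injective Nat.infinite_setOf_prime hij)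
  have hpr : ∀ i : Fin (d + 2), Nat.Prime (Nat.nth Nat.Prime i) := fun i =>
    Nat.prime_nth_prime i
  have hne : ∀ i : Fin (d + 2), NeZero (Nat.nth Nat.Prime i) := fun i => ⟨(hpr i).ne_zero⟩
  refine ⟨GG (fun i : Fin (d + 2) => Nat.nth Nat.Prime i), inferInstance, inferInstance,
    GG_metabelian _, ?_⟩
  exact main _ d rfl (fun i => (hpr i).two_le) (fun i j hij => by
    show IsCoprime ((Nat.nth Nat.Prime i : ℕ) : ℤ) ((Nat.nth Nat.Prime j : ℕ) : ℤ)
    rw [Nat.isCoprime_iff_coprime]
    exact (Nat.coprime_primes (hpr i) (hpr j)).2 (fun h => hij (hinj h)))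

end Pool.Agent.Results.MP_69c751_al.UnboundedLength
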